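import Pool.Agent.H68.FA.LocAlg

/-!
# Irreducibility of attached Galois representations from a single Hecke polynomial

Let `ρ` be attached to a family of Hecke polynomials (for instance those of an algebraic cuspidal
automorphic representation `π`), and assume that the Satake parameters are algebraic at three primes
different from `ℓ` (as is the case at all primes when `π` is regular algebraic). If one Hecke
polynomial at `p ≠ ℓ` is irreducible over its field of coefficients `K`, of prime degree or with
doubly transitive Galois group, and has two roots whose quotient is not a root of unity, then `ρ` is
irreducible. More generally a factor with roots in `K` is allowed, if none of the products of its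
roots is a root of unity times a rational power of `p`.

The proof: the determinants of the subrepresentations of `ρ` are locally algebraic; this is proved
here in full, from the `ℓ`-adic six exponentials theorem and the uniqueness of the cyclic extension
of degree `ℓ` of the rationals which is real and unramified outside `ℓ`. Hence the eigenvalues of
Frobenius at `p` on a subrepresentation form a subset of the roots whose product is a root of unity
times a rational power of `p`; this is preserved by the Galois group of `P`, and the translates of a
proper subset of the roots span the permutation module.
-/

set_option autoImplicit false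

namespace Pool.Agent.Results.MP_fa5bba_nt.OneHeckePolynomial

open Polynomial Pool.Agent.H68.FA

theorem result {ℓ : ℕ} [Fact ℓ.Prime] {n : ℕ}
    -- the Hecke polynomials `H p`, for `p` in the set `unr` of unramified primes
    (unr : Set ℕ) (H : ℕ → ℂ[X]) (ι : ℂ ≃+* PadicAlgCl ℓ)
    (ρ : GalRep ℓ n) (hρ : Attached unr H ι ρ) (h3 : ThreeAlgebraic unr H ℓ)
    -- the factorisation `H p = P · ∏ (X - r)` over the field `K`
    (p : ℕ) (hp : p.Prime) (hpℓ : p ≠ ℓ) (hpu : p ∈ unr)
    (K : Subfield ℂ) (P : K[X]) (R : Multiset ℂ) (hRK : ∀ r ∈ R, r ∈ K)
    (hH : H p = P.map K.subtype * linProd R)
    (hP : Irreducible P) (hd : P.natDegree.Prime ∨ DoublyTransitive P)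
    (hnd : Nondegenerate (P.map K.subtype)) (hR : NoTorsionProduct p R) :
    ρ.IsIrreducible :=
  irreducible_of_hecke hρ (locAlgDets hρ h3) hp hpℓ hpu K P hP hd hnd R hRK hR hH

end Pool.Agent.Results.MP_fa5bba_nt.OneHeckePolynomial
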