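import Pool.Agent.GLFour.Final3

/-!
# Irreducibility in rank four

Let `ρ` be a four-dimensional representation attached to Hecke polynomials `H p`, `p ∉ S`, with
coefficients in a number field, whose normalised roots `R p = satake H w p` satisfy the bounds of
Jacquet and Shalika and have product of absolute value one. Then `ρ` is irreducible, or the sum of
the twists of the system `R` by a finite group `A` of characters is self-dual, or the sum over `A`
of the twists of its exterior square and of two trivial systems is the sum over `A` of the twists of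
`R` and of its dual.

If `H` belongs to a cuspidal automorphic representation `π` of `GL_4`, the second alternative means
that `π` is essentially self-dual, and the third one is impossible, as the right hand side is a sum
of cuspidal representations of `GL_4` (strong multiplicity one for isobaric sums).
-/

set_option autoImplicit false

namespace Pool.Agent.Results.MP_fa5bba_nt.RankFour

open Polynomial Pool.Agent.H68.FA Pool.Agent.GLFour

theorem result {ℓ : ℕ} [Fact ℓ.Prime] (S : Finset ℕ) (hℓ : ℓ ∈ S) (H : ℕ → ℂ[X])
    (ι : ℂ ≃+* PadicAlgCl ℓ) (ρ : GalRep ℓ 4) (hρ : Attached {p | p ∉ S} H ι ρ)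
    -- the Hecke polynomials have coefficients in a number field
    (E : IntermediateField ℚ ℂ) [FiniteDimensional ℚ E]
    (hE : ∀ p, p.Prime → p ∉ S → ∀ i, (H p).coeff i ∈ E) (w : ℤ)
    -- the bounds of Jacquet and Shalika, and the unitary central character
    (hJS : ∀ p, p.Prime → p ∉ S → ∀ r ∈ satake H w p,
      (p : ℝ) ^ (-(1 : ℝ) / 2) < ‖r‖ ∧ ‖r‖ < (p : ℝ) ^ ((1 : ℝ) / 2))
    (hc : ∀ p, p.Prime → p ∉ S → ‖(satake H w p).prod‖ = 1) :
    ρ.IsIrreducible ∨ ∃ A : Finset (FinChar S), IsGroup A ∧
      (SelfDualOver A (satake H w) ∨ ExtSqOver A 1 (satake H w)) :=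
  main_four rfl hℓ hρ E hE w hJS hc

end Pool.Agent.Results.MP_fa5bba_nt.RankFour
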