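import Pool.Agent.GLFour.Final3

/-!
# Essentially self-dual constituents and self-duality of Hecke systems

Let `ρ` be attached to Hecke polynomials `H p`, `p ∉ S`, with coefficients in a number field, whose
normalised roots satisfy the bounds of Jacquet and Shalika. If every irreducible constituent of
`ρ` of dimension at least three is essentially self-dual, then the sum of the twists of the Hecke
system by some finite group of characters is self-dual. (For the Hecke system of a cuspidal
automorphic representation `π` this means that `π` itself is essentially self-dual, by strong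
multiplicity one.)
-/

set_option autoImplicit false

namespace Pool.Agent.Results.MP_fa5bba_nt.SelfDualTwists

open Polynomial Pool.Agent.H68.FA Pool.Agent.GLFour

theorem result {ℓ : ℕ} [Fact ℓ.Prime] {n : ℕ} (S : Finset ℕ) (hℓ : ℓ ∈ S) (H : ℕ → ℂ[X])
    (ι : ℂ ≃+* PadicAlgCl ℓ) (ρ : GalRep ℓ n) (hρ : Attached {p | p ∉ S} H ι ρ)
    -- the Hecke polynomials have coefficients in a number field
    (E : IntermediateField ℚ ℂ) [FiniteDimensional ℚ E]
    (hE : ∀ p, p.Prime → p ∉ S → ∀ i, (H p).coeff i ∈ E) (w : ℤ)
    -- the bounds of Jacquet and Shalika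
    (hJS : ∀ p, p.Prime → p ∉ S → ∀ r ∈ satake H w p,
      (p : ℝ) ^ (-(1 : ℝ) / 2) < ‖r‖ ∧ ‖r‖ < (p : ℝ) ^ ((1 : ℝ) / 2)) :
    (∃ W : Subrepresentation ρ, W.toRepresentation.IsIrreducible ∧ 3 ≤ dimSub W ∧
      ¬ EssSelfDual W.toRepresentation) ∨
    ∃ A : Finset (FinChar S), IsGroup A ∧ SelfDualOver A (satake H w) :=
  main_esd hℓ hρ E hE w hJS

end Pool.Agent.Results.MP_fa5bba_nt.SelfDualTwists
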