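import Pool.Agent.GLFour3.Small

/-!
# Decompositions with a complement whose constituents have dimension at most two

Let `ρ` be a representation of dimension `n` attached to Hecke polynomials `H p`, `p ∉ S`, with
coefficients in a number field, whose normalised roots `R p = satake H w p` satisfy the bounds of
Jacquet and Shalika and have product of absolute value one. Let `ρ = T ⊕ U` be a decomposition such
that all irreducible subrepresentations of `U` have dimension at most two, let `m = dim T` and let
`U p` be the multiset of the normalised eigenvalues of a geometric Frobenius element at `p` on `U`.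
Then the determinants of `T` and `U` are (after the normalisation) characters `d`, `e` of finite
order, and the exterior powers of `R` and of its dual and the symmetric powers of `U` satisfy the
identities `ComplementIdentities`.

For `n = 5`, `dim U = 2` and `k = m = 3` the identity reads
`Λ³ R + R ⊗ Sym² U = Λ² R ⊗ U + Sym³ U + d`. If `R` comes from a cuspidal automorphic
representation `π` of `GL_5` and `U` from one of `GL_2`, then it is impossible, since the
Langlands-Shahidi `L`-function `L(s, Λ² π × π_U ⊗ d⁻¹)` does not vanish at `s = 1`.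
-/

set_option autoImplicit false

namespace Pool.Agent.Results.MP_fa5bba_nt.SmallComplement

open Polynomial Pool.Agent.H68.FA Pool.Agent.GLFour

theorem result {ℓ : ℕ} [Fact ℓ.Prime] {n : ℕ} (S : Finset ℕ) (hℓ : ℓ ∈ S)
    (H : ℕ → ℂ[X]) (ι : ℂ ≃+* PadicAlgCl ℓ) (ρ : GalRep ℓ n) (hρ : Attached {p | p ∉ S} H ι ρ)
    -- the Hecke polynomials have coefficients in a number field
    (E : IntermediateField ℚ ℂ) [FiniteDimensional ℚ E]
    (hE : ∀ p, p.Prime → p ∉ S → ∀ i, (H p).coeff i ∈ E) (w : ℤ)
    -- the bounds of Jacquet and Shalika, and the unitary central character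
    (hJS : ∀ p, p.Prime → p ∉ S → ∀ r ∈ satake H w p,
      (p : ℝ) ^ (-(1 : ℝ) / 2) < ‖r‖ ∧ ‖r‖ < (p : ℝ) ^ ((1 : ℝ) / 2))
    (hc : ∀ p, p.Prime → p ∉ S → ‖(satake H w p).prod‖ = 1)
    -- a decomposition of `ρ`, all irreducible subrepresentations of `U` having dimension `≤ 2`
    (T U : Subrepresentation ρ) (hTU : IsCompl T U)
    (hU : ∀ W : Subrepresentation ρ, W.toRepresentation.IsIrreducible → W ≤ U → dimSub W ≤ 2) :
    ∃ d e : FinChar S, ComplementIdentities (dimSub T) d (satake H w) (frobRoots ι w U) ∧
      ∀ p : ℕ, p.Prime → p ∉ S → (frobRoots ι w U p).prod = e.val p := by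
  refine main_comp hℓ hρ E hE w hJS hc T U hTU fun W hW hWT => ?_
  rcases Nat.eq_zero_or_pos (dimSub W) with h0 | h0
  · omega
  · exact Comp_small hTU hU W hW h0 hWT

end Pool.Agent.Results.MP_fa5bba_nt.SmallComplement
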